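import Pool.Agent.Helper47.Spec.Num4
import Pool.Agent.Helper47.Spec.Upper
import Pool.Agent.Helper47.Spec.Limit

/-!
# The upper endpoint of the additive spectrum, up to a factor polynomial in `h`
-/

open Filter Topology

namespace Pool.Agent.Results.MP_ab8360_nt.ExponentialRate

/-- `A` is an asymptotic basis of order `h`: all but finitely many nonnegative integers are
sums of `h` elements of `A`, repetitions allowed. -/
def IsAsymptoticBasis (h : ℕ) (A : Set ℕ) : Prop :=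
  ∀ᶠ n : ℕ in atTop, ∃ f : Fin h → ℕ, (∀ i, f i ∈ A) ∧ ∑ i, f i = n

/-- `lam > 0` is an additive eigenvalue of order `h`: there is an asymptotic basis
`{a 0 < a 1 < ...}` of order `h` with `a n ~ lam (n + 1) ^ h`; here `a n` is the `(n + 1)`-st
element, so that this is `a_n ~ lam n ^ h` in the usual numbering. -/
def IsEigenvalue (h : ℕ) (lam : ℝ) : Prop :=
  0 < lam ∧ ∃ a : ℕ → ℕ, StrictMono a ∧ IsAsymptoticBasis h (Set.range a) ∧
    Tendsto (fun n : ℕ => (a n : ℝ) / (lam * ((n : ℝ) + 1) ^ h)) atTop (𝓝 1)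

/-- The supremum `lambda_h^*` of the additive spectrum of order `h`. -/
noncomputable def endpoint (h : ℕ) : ℝ := sSup {lam : ℝ | IsEigenvalue h lam}

lemma le_of_isEigenvalue {h : ℕ} (hh : 1 ≤ h) {lam : ℝ} (hl : IsEigenvalue h lam) :
    lam ≤ 1 / (h.factorial : ℝ) := by
  obtain ⟨h0, a, ha, hb, hlim⟩ := hl
  refine Helper47.Spec.upper hh h0 ha ?_ hlim
  filter_upwards [hb] with n hn
  obtain ⟨f, hf, hfn⟩ := hn
  choose m hm using hf
  exact ⟨m, by rw [← hfn]; exact Finset.sum_congr rfl fun i _ => hm i⟩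

lemma exists_isEigenvalue {h : ℕ} (hh : 10 ^ 8 ≤ h) :
    ∃ lam : ℝ, IsEigenvalue h lam ∧ 1 / ((h : ℝ) ^ 33 * h.factorial) ≤ lam := by
  obtain ⟨lam, hl, a, ha, hb, hlim⟩ :=
    Helper47.Spec.exists_basis_of_big (Helper47.Spec.big_of_le hh)
  have hh0 : (0 : ℝ) < h := by exact_mod_cast (by omega : 0 < h)
  have hf : (0 : ℝ) < h.factorial := by exact_mod_cast h.factorial_pos
  refine ⟨lam, ⟨lt_of_lt_of_le (by positivity) hl, a, ha, ?_, hlim⟩, hl⟩
  filter_upwards [hb] with n hn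
  obtain ⟨f, hf⟩ := hn
  exact ⟨fun i => a (f i), fun i => ⟨f i, rfl⟩, hf⟩

lemma bounds {h : ℕ} (hh : 10 ^ 8 ≤ h) :
    1 / ((h : ℝ) ^ 33 * h.factorial) ≤ endpoint h ∧ endpoint h ≤ 1 / (h.factorial : ℝ) := by
  obtain ⟨lam, hl, hle⟩ := exists_isEigenvalue hh
  have hbdd : BddAbove {lam : ℝ | IsEigenvalue h lam} :=
    ⟨1 / (h.factorial : ℝ), fun x hx => le_of_isEigenvalue (by omega) hx⟩
  exact ⟨hle.trans (le_csSup hbdd hl),
    csSup_le ⟨lam, hl⟩ fun x hx => le_of_isEigenvalue (by omega) hx⟩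

/-- For every `h ≥ 10 ^ 8` the spectrum of order `h` is nonempty, bounded above by `1 / h!`, and
its supremum lies between `1 / (h ^ 33 h!)` and `1 / h!`; in particular
`h (lambda_h^*) ^ (1 / h)` tends to `e`. -/
theorem result :
    (∀ h : ℕ, 10 ^ 8 ≤ h →
      (∃ lam : ℝ, IsEigenvalue h lam) ∧
      (∀ lam : ℝ, IsEigenvalue h lam → lam ≤ 1 / (h.factorial : ℝ)) ∧
      1 / ((h : ℝ) ^ 33 * h.factorial) ≤ endpoint h ∧ endpoint h ≤ 1 / (h.factorial : ℝ)) ∧
    Tendsto (fun h : ℕ => (h : ℝ) * endpoint h ^ ((h : ℝ)⁻¹)) atTop (𝓝 (Real.exp 1)) := by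
  refine ⟨fun h hh => ?_, Helper47.Spec.limit_of_bounds (N := 10 ^ 8) fun h hh => bounds hh⟩
  obtain ⟨lam, hl, _⟩ := exists_isEigenvalue hh
  exact ⟨⟨lam, hl⟩, fun x hx => le_of_isEigenvalue (by omega) hx, bounds hh⟩

end Pool.Agent.Results.MP_ab8360_nt.ExponentialRate
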