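import Pool.Agent.Helper58.Thin.Count
import Pool.Agent.Helper47.Spec.Upper

/-!
# The upper endpoint of the additive spectrum of order two is at least `1 / 10`
-/

open Filter Topology

namespace Pool.Agent.Results.MP_ab8360_nt.OrderTwo

/-- `A` is an asymptotic basis of order `h`: all but finitely many nonnegative integers are
sums of `h` elements of `A`, repetitions allowed. -/
def IsAsymptoticBasis (h : ℕ) (A : Set ℕ) : Prop :=
  ∀ᶠ n : ℕ in atTop, ∃ f : Fin h → ℕ, (∀ i, f i ∈ A) ∧ ∑ i, f i = n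

/-- `lam > 0` is an additive eigenvalue of order `h`: there is an asymptotic basis
`{a 0 < a 1 < ...}` of order `h` with `a n ~ lam (n + 1) ^ h`; here `a n` is the `(n + 1)`-st
element, so that this is `a_n ~ lam n ^ h` in the usual numbering. -/
def IsEigenvalue (h : ℕ) (lam : ℝ) : Prop :=
  0 < lam ∧ ∃ a : ℕ → ℕ, StrictMono a ∧ IsAsymptoticBasis h (Set.range a) ∧
    Tendsto (fun n : ℕ => (a n : ℝ) / (lam * ((n : ℝ) + 1) ^ h)) atTop (𝓝 1)

/-- The supremum `lambda_h^*` of the additive spectrum of order `h`. -/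
noncomputable def endpoint (h : ℕ) : ℝ := sSup {lam : ℝ | IsEigenvalue h lam}

lemma le_of_isEigenvalue {h : ℕ} (hh : 1 ≤ h) {lam : ℝ} (hl : IsEigenvalue h lam) :
    lam ≤ 1 / (h.factorial : ℝ) := by
  obtain ⟨h0, a, ha, hb, hlim⟩ := hl
  refine Helper47.Spec.upper hh h0 ha ?_ hlim
  filter_upwards [hb] with n hn
  obtain ⟨f, hf, hfn⟩ := hn
  choose m hm using hf
  exact ⟨m, by rw [← hfn]; exact Finset.sum_congr rfl fun i _ => hm i⟩

lemma isEigenvalue_two : IsEigenvalue 2 (1 / 10) := by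
  obtain ⟨a, ha, hb, hlim⟩ := Pool.Agent.Helper58.Thin.exists_seq
  refine ⟨by norm_num, a, ha, Eventually.of_forall fun n => ?_, hlim⟩
  obtain ⟨i, j, hij⟩ := hb n
  refine ⟨![a i, a j], ?_, by simpa [Fin.sum_univ_two] using hij⟩
  intro k
  fin_cases k
  · exact ⟨i, rfl⟩
  · exact ⟨j, rfl⟩

/-- `1 / 10` is an additive eigenvalue of order two; hence `lambda_2^* ≥ 1 / 10`. -/
theorem result : IsEigenvalue 2 (1 / 10) ∧ 1 / 10 ≤ endpoint 2 := by
  refine ⟨isEigenvalue_two, le_csSup ⟨1 / ((2 : ℕ).factorial : ℝ), ?_⟩ isEigenvalue_two⟩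
  intro x hx
  exact le_of_isEigenvalue (by norm_num) hx

end Pool.Agent.Results.MP_ab8360_nt.OrderTwo
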